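import Pool.Agent.MP_43f1fb_co.Mg.Main

open Pool.Agent.MP_43f1fb_co

/-- For `n ≥ 3` and `1 ≤ p ≤ n / 2` the majority relation of the uniform tally on
`D_{n,p} = Pre(C(i_p))` is the total order `<_{u_p}`. -/
theorem Pool.Agent.Results.MP_43f1fb_co.Majority.result :
    ∀ n p : ℕ, 3 ≤ n → 1 ≤ p → 2 * p ≤ n → ∀ a b : Fin n, a ≠ b →
      (Majority (Pre n (commClass (powWord n p))) a b ↔ Before (uPerm n p) a b) :=
  fun _ _ hn hp hpn a b hab => majority_iff hn hp hpn a b hab
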